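import Mathlib

set_option autoImplicit false

open Filter Topology Set

namespace Pool.Agent.Results.MP_fe8c84_an.Uniqueness

/-- Frechet superdifferential of `f` at `x` (a point of the plane): all `p` with
`limsup_{y → x} (f y - f x - p · (y - x)) / |y - x| ≤ 0`, `|·|` the Euclidean norm. -/
def superDiff (f : ℝ × ℝ → ℝ) (x : ℝ × ℝ) : Set (ℝ × ℝ) :=
  {p | ∀ ε : ℝ, 0 < ε → ∀ᶠ y in 𝓝 x,
    f y - f x - (p.1 * (y.1 - x.1) + p.2 * (y.2 - x.2)) ≤
      ε * Real.sqrt ((y.1 - x.1) ^ 2 + (y.2 - x.2) ^ 2)}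

/-- Frechet subdifferential of `f` at `x`: all `p` with
`liminf_{y → x} (f y - f x - p · (y - x)) / |y - x| ≥ 0`. -/
def subDiff (f : ℝ × ℝ → ℝ) (x : ℝ × ℝ) : Set (ℝ × ℝ) :=
  {p | ∀ ε : ℝ, 0 < ε → ∀ᶠ y in 𝓝 x,
    -(ε * Real.sqrt ((y.1 - x.1) ^ 2 + (y.2 - x.2) ^ 2)) ≤
      f y - f x - (p.1 * (y.1 - x.1) + p.2 * (y.2 - x.2))}

/-- The closed quadrant `[0,∞) × [0,∞)`, points are pairs `(t, ρ)`. -/
def quadrant : Set (ℝ × ℝ) := {x | 0 ≤ x.1 ∧ 0 ≤ x.2}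

/-- Viscosity subsolution of `m_t + (m_ρ)_+ ^ α * m = 0` with initial datum `m0` and
boundary value `0` at `ρ = 0`. -/
def IsSubsolution (α : ℝ) (m0 : ℝ → ℝ) (m : ℝ × ℝ → ℝ) : Prop :=
  ContinuousOn m quadrant ∧
  (∀ t ρ : ℝ, 0 < t → 0 < ρ → ∀ p ∈ superDiff m (t, ρ),
    p.1 + (max p.2 0) ^ α * m (t, ρ) ≤ 0) ∧
  (∀ ρ : ℝ, 0 ≤ ρ → m (0, ρ) ≤ m0 ρ) ∧ (∀ t : ℝ, 0 ≤ t → m (t, 0) ≤ 0)

/-- Viscosity supersolution. -/
def IsSupersolution (α : ℝ) (m0 : ℝ → ℝ) (m : ℝ × ℝ → ℝ) : Prop :=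
  ContinuousOn m quadrant ∧
  (∀ t ρ : ℝ, 0 < t → 0 < ρ → ∀ p ∈ subDiff m (t, ρ),
    0 ≤ p.1 + (max p.2 0) ^ α * m (t, ρ)) ∧
  (∀ ρ : ℝ, 0 ≤ ρ → m0 ρ ≤ m (0, ρ)) ∧ (∀ t : ℝ, 0 ≤ t → 0 ≤ m (t, 0))

/-- Viscosity solution: both a subsolution and a supersolution. -/
def IsSolution (α : ℝ) (m0 : ℝ → ℝ) (m : ℝ × ℝ → ℝ) : Prop :=
  IsSubsolution α m0 m ∧ IsSupersolution α m0 m

lemma norm_le_sqrt (a b : ℝ) : ‖((a, b) : ℝ × ℝ)‖ ≤ Real.sqrt (a ^ 2 + b ^ 2) := by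
  rw [Prod.norm_def]
  refine max_le ?_ ?_
  · rw [Real.norm_eq_abs]
    refine Real.abs_le_sqrt ?_
    nlinarith [sq_nonneg b]
  · rw [Real.norm_eq_abs]
    refine Real.abs_le_sqrt ?_
    nlinarith [sq_nonneg a]

/-- Smooth functions touching from above. -/
lemma mem_superDiff (f φ : ℝ × ℝ → ℝ) (x p : ℝ × ℝ)
    (hφ : HasFDerivAt φ (p.1 • ContinuousLinearMap.fst ℝ ℝ ℝ + p.2 • ContinuousLinearMap.snd ℝ ℝ ℝ) x)
    (h : ∀ᶠ y in 𝓝 x, f y - φ y ≤ f x - φ x) : p ∈ superDiff f x := by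
  intro ε hε
  have h1 := (hasFDerivAt_iff_isLittleO.mp hφ).def hε
  filter_upwards [h, h1] with y hy hy1
  have h2 : ‖y - x‖ ≤ Real.sqrt ((y.1 - x.1) ^ 2 + (y.2 - x.2) ^ 2) := norm_le_sqrt _ _
  have h3 := (le_abs_self _).trans ((Real.norm_eq_abs _ ▸ hy1).trans
    (mul_le_mul_of_nonneg_left h2 hε.le))
  simp only [add_apply, smul_apply,
    ContinuousLinearMap.coe_fst', ContinuousLinearMap.coe_snd', smul_eq_mul, Prod.fst_sub,
    Prod.snd_sub] at h3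
  linarith

/-- Smooth functions touching from below. -/
lemma mem_subDiff (f φ : ℝ × ℝ → ℝ) (x p : ℝ × ℝ)
    (hφ : HasFDerivAt φ (p.1 • ContinuousLinearMap.fst ℝ ℝ ℝ + p.2 • ContinuousLinearMap.snd ℝ ℝ ℝ) x)
    (h : ∀ᶠ y in 𝓝 x, f x - φ x ≤ f y - φ y) : p ∈ subDiff f x := by
  intro ε hε
  have h1 := (hasFDerivAt_iff_isLittleO.mp hφ).def hε
  filter_upwards [h, h1] with y hy hy1
  have h2 : ‖y - x‖ ≤ Real.sqrt ((y.1 - x.1) ^ 2 + (y.2 - x.2) ^ 2) := norm_le_sqrt _ _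
  have h3 := (neg_le_abs _).trans ((Real.norm_eq_abs _ ▸ hy1).trans
    (mul_le_mul_of_nonneg_left h2 hε.le))
  simp only [add_apply, smul_apply,
    ContinuousLinearMap.coe_fst', ContinuousLinearMap.coe_snd', smul_eq_mul, Prod.fst_sub,
    Prod.snd_sub] at h3
  linarith

/-- Derivative of a separated function. -/
lemma hasFDerivAt_sep (f g : ℝ → ℝ) (a b : ℝ) (x : ℝ × ℝ) (hf : HasDerivAt f a x.1)
    (hg : HasDerivAt g b x.2) :
    HasFDerivAt (fun y : ℝ × ℝ => f y.1 + g y.2)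
      (a • ContinuousLinearMap.fst ℝ ℝ ℝ + b • ContinuousLinearMap.snd ℝ ℝ ℝ) x := by
  have h1 : HasFDerivAt (fun y : ℝ × ℝ => f y.1) (a • ContinuousLinearMap.fst ℝ ℝ ℝ) x :=
    hf.comp_hasFDerivAt x (hasFDerivAt_fst (p := x))
  have h2 : HasFDerivAt (fun y : ℝ × ℝ => g y.2) (b • ContinuousLinearMap.snd ℝ ℝ ℝ) x :=
    hg.comp_hasFDerivAt x (hasFDerivAt_snd (p := x))
  exact h1.add h2

/-- The box `[0,a+1] × [0,b+1]`. -/
def box (a b : ℝ) : Set (ℝ × ℝ) := Icc 0 (a + 1) ×ˢ Icc 0 (b + 1)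

lemma box_sub (a b : ℝ) : box a b ⊆ quadrant := fun _ hx => ⟨hx.1.1, hx.2.1⟩

lemma box_compact (a b : ℝ) : IsCompact (box a b) := isCompact_Icc.prod isCompact_Icc

lemma box_nhds (a b : ℝ) (x : ℝ × ℝ) (h1 : 0 < x.1) (h2 : x.1 < a + 1) (h3 : 0 < x.2)
    (h4 : x.2 < b + 1) : box a b ∈ 𝓝 x := by
  rw [← Prod.mk.eta (p := x)]
  exact prod_mem_nhds (Icc_mem_nhds h1 h2) (Icc_mem_nhds h3 h4)

lemma exists_k (B c : ℝ) (hc : 0 < c) : ∃ k : ℝ, 0 < k ∧ 2 * Real.exp (-(k / 2)) < c ∧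
    B < Real.exp (k / 4) := by
  have h1 : Tendsto (fun k : ℝ => 2 * Real.exp (-(k / 2))) atTop (𝓝 (2 * 0)) := by
    refine Tendsto.const_mul _ (Real.tendsto_exp_neg_atTop_nhds_zero.comp ?_)
    exact tendsto_id.atTop_div_const (by norm_num)
  rw [mul_zero] at h1
  have h2 : Tendsto (fun k : ℝ => Real.exp (k / 4)) atTop atTop :=
    Real.tendsto_exp_atTop.comp (tendsto_id.atTop_div_const (by norm_num))
  obtain ⟨k, hk⟩ := ((eventually_gt_atTop (0 : ℝ)).and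
    ((h1.eventually (gt_mem_nhds hc)).and (h2.eventually (eventually_gt_atTop B)))).exists
  exact ⟨k, hk.1, hk.2.1, hk.2.2⟩

lemma hasDerivAt_pen (k a x : ℝ) :
    HasDerivAt (fun s : ℝ => Real.exp (k * (s - a - 1 / 2)))
      (k * Real.exp (k * (x - a - 1 / 2))) x := by
  have h : HasDerivAt (fun s : ℝ => k * (s - a - 1 / 2)) k x := by
    have := (((hasDerivAt_id x).sub_const a).sub_const (1 / 2)).const_mul k
    simpa using this
  have h2 := h.exp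
  convert h2 using 1
  ring

/-- Supersolutions are nonnegative. -/
lemma supersolution_nonneg (α : ℝ) (hα : 0 < α) (m0 : ℝ → ℝ) (hm0 : ∀ ρ, 0 ≤ ρ → 0 ≤ m0 ρ)
    (v : ℝ × ℝ → ℝ) (hv : IsSupersolution α m0 v) (x0 : ℝ × ℝ) (hx0 : x0 ∈ quadrant) :
    0 ≤ v x0 := by
  obtain ⟨hcont, hsup, hinit, hbd⟩ := hv
  by_contra hneg
  push Not at hneg
  have hK := box_compact x0.1 x0.2
  have hcK : ContinuousOn v (box x0.1 x0.2) := hcont.mono (box_sub _ _)
  have hx0K : x0 ∈ box x0.1 x0.2 :=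
    ⟨⟨hx0.1, by linarith⟩, ⟨hx0.2, by linarith⟩⟩
  obtain ⟨B, hB⟩ := hK.exists_bound_of_continuousOn hcK
  obtain ⟨k, hk0, hk1, hk2⟩ := exists_k B (-v x0) (by linarith)
  set P : ℝ × ℝ → ℝ := fun y => Real.exp (k * (y.1 - x0.1 - 1 / 2)) +
    Real.exp (k * (y.2 - x0.2 - 1 / 2)) with hP
  have hPc : Continuous P := by simp only [hP]; fun_prop
  obtain ⟨z, hzK, hz⟩ := hK.exists_isMinOn ⟨x0, hx0K⟩ (hcK.add hPc.continuousOn)
  have hz' : ∀ y ∈ box x0.1 x0.2, v z + P z ≤ v y + P y := fun y hy => hz hy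
  have hz0 := hz' x0 hx0K
  have hP0 : P x0 = 2 * Real.exp (-(k / 2)) := by
    simp only [hP]
    have e : ∀ a : ℝ, k * (a - a - 1 / 2) = -(k / 2) := by intro a; ring
    rw [e, e]; ring
  have hPz : 0 < P z := by simp only [hP]; positivity
  have hneg' : v z + P z < 0 := by linarith
  have hexp : ∀ s a : ℝ, a + 3 / 4 ≤ s → B < Real.exp (k * (s - a - 1 / 2)) := by
    intro s a hs
    refine hk2.trans_le (Real.exp_le_exp.mpr ?_)
    nlinarith
  have hBz : -B ≤ v z := by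
    have := hB z hzK
    rw [Real.norm_eq_abs] at this
    exact (abs_le.mp this).1
  have h1 : 0 < z.1 := by
    rcases lt_or_eq_of_le hzK.1.1 with h | h
    · exact h
    · exfalso
      have e : z = (0, z.2) := by rw [h]
      have : m0 z.2 ≤ v z := by rw [e]; exact hinit z.2 hzK.2.1
      linarith [hm0 z.2 hzK.2.1]
  have h2 : 0 < z.2 := by
    rcases lt_or_eq_of_le hzK.2.1 with h | h
    · exact h
    · exfalso
      have e : z = (z.1, 0) := by rw [h]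
      have : 0 ≤ v z := by rw [e]; exact hbd z.1 hzK.1.1
      linarith
  have h3 : z.1 < x0.1 + 1 := by
    by_contra h
    push Not at h
    have := hexp z.1 x0.1 (by linarith)
    have h5 : Real.exp (k * (z.1 - x0.1 - 1 / 2)) < P z := by
      simp only [hP]; linarith [Real.exp_pos (k * (z.2 - x0.2 - 1 / 2))]
    linarith
  have h4 : z.2 < x0.2 + 1 := by
    by_contra h
    push Not at h
    have := hexp z.2 x0.2 (by linarith)
    have h5 : Real.exp (k * (z.2 - x0.2 - 1 / 2)) < P z := by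
      simp only [hP]; linarith [Real.exp_pos (k * (z.1 - x0.1 - 1 / 2))]
    linarith
  have hmem : ((-(k * Real.exp (k * (z.1 - x0.1 - 1 / 2))),
      -(k * Real.exp (k * (z.2 - x0.2 - 1 / 2)))) : ℝ × ℝ) ∈ subDiff v (z.1, z.2) := by
    refine mem_subDiff v (fun y => -Real.exp (k * (y.1 - x0.1 - 1 / 2)) +
      -Real.exp (k * (y.2 - x0.2 - 1 / 2))) _ _ ?_ ?_
    · exact hasFDerivAt_sep (fun s => -Real.exp (k * (s - x0.1 - 1 / 2)))
        (fun s => -Real.exp (k * (s - x0.2 - 1 / 2))) _ _ _ (hasDerivAt_pen _ _ _).neg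
        (hasDerivAt_pen _ _ _).neg
    · filter_upwards [box_nhds x0.1 x0.2 z h1 h3 h2 h4] with y hy
      have := hz' y hy
      simp only [hP] at this
      have e : v (z.1, z.2) = v z := rfl
      rw [e]
      linarith
  have hfin := hsup z.1 z.2 h1 h2 _ hmem
  have hmax : max (-(k * Real.exp (k * (z.2 - x0.2 - 1 / 2)))) 0 = 0 := by
    refine max_eq_right ?_
    have : 0 < k * Real.exp (k * (z.2 - x0.2 - 1 / 2)) := by positivity
    linarith
  simp only at hfin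
  rw [hmax, Real.zero_rpow hα.ne', zero_mul, add_zero] at hfin
  have : 0 < k * Real.exp (k * (z.1 - x0.1 - 1 / 2)) := by positivity
  linarith

/-- Comparison principle for merely continuous sub- and supersolutions. -/
theorem comparison (α : ℝ) (hα : 0 < α) (m0 : ℝ → ℝ) (hm0 : ∀ ρ, 0 ≤ ρ → 0 ≤ m0 ρ)
    (u v : ℝ × ℝ → ℝ) (hu : IsSubsolution α m0 u) (hv : IsSupersolution α m0 v)
    (x0 : ℝ × ℝ) (hx0 : x0 ∈ quadrant) : u x0 ≤ v x0 := by
  have hvnn := supersolution_nonneg α hα m0 hm0 v hv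
  obtain ⟨hcu, hsub, hinu, hbu⟩ := hu
  obtain ⟨hcv, hsup, hinv, hbv⟩ := hv
  by_contra hneg
  push Not at hneg
  set c : ℝ := (u x0 - v x0) / 3 with hc
  have hc0 : 0 < c := by rw [hc]; linarith
  have hK := box_compact x0.1 x0.2
  have hcuK : ContinuousOn u (box x0.1 x0.2) := hcu.mono (box_sub _ _)
  have hcvK : ContinuousOn v (box x0.1 x0.2) := hcv.mono (box_sub _ _)
  have hx0K : x0 ∈ box x0.1 x0.2 :=
    ⟨⟨hx0.1, by linarith⟩, ⟨hx0.2, by linarith⟩⟩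
  obtain ⟨B, hB⟩ := hK.exists_bound_of_continuousOn hcuK
  have hB0 : 0 ≤ B := (norm_nonneg _).trans (hB x0 hx0K)
  obtain ⟨k, hk0, hk1, hk2⟩ := exists_k B c hc0
  obtain ⟨δ1, hδ1, hδu⟩ := Metric.uniformContinuousOn_iff.mp
    (hK.uniformContinuousOn_of_continuous hcuK) c hc0
  obtain ⟨δ2, hδ2, hδv⟩ := Metric.uniformContinuousOn_iff.mp
    (hK.uniformContinuousOn_of_continuous hcvK) c hc0
  set η : ℝ := min (min δ1 δ2) (1 / 4) with hη
  have hη0 : 0 < η := by rw [hη]; exact lt_min (lt_min hδ1 hδ2) (by norm_num)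
  have hη1 : η ≤ δ1 := (min_le_left _ _).trans (min_le_left _ _)
  have hη2 : η ≤ δ2 := (min_le_left _ _).trans (min_le_right _ _)
  have hη3 : η ≤ 1 / 4 := min_le_right _ _
  set ε : ℝ := η ^ 2 / (4 * (B + 1)) with hε
  have hε0 : 0 < ε := by rw [hε]; positivity
  have hεB : 2 * ε * B < η ^ 2 := by
    rw [hε]
    have h1 : 2 * (η ^ 2 / (4 * (B + 1))) * B = η ^ 2 * (B / (2 * (B + 1))) := by
      field_simp; ring
    rw [h1]
    have h2 : B / (2 * (B + 1)) < 1 := by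
      rw [div_lt_one (by positivity)]; linarith
    have h3 : 0 < η ^ 2 := by positivity
    nlinarith
  set P : ℝ × ℝ → ℝ := fun y => Real.exp (k * (y.1 - x0.1 - 1 / 2)) +
    Real.exp (k * (y.2 - x0.2 - 1 / 2)) with hP
  have hPc : Continuous P := by simp only [hP]; fun_prop
  set D : (ℝ × ℝ) × (ℝ × ℝ) → ℝ := fun q =>
    ((q.1.1 - q.2.1) ^ 2 + (q.1.2 - q.2.2) ^ 2) / (2 * ε) with hD
  have hDc : Continuous D := by simp only [hD]; fun_prop
  have hKK : IsCompact (box x0.1 x0.2 ×ˢ box x0.1 x0.2) := hK.prod hK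
  have hcont : ContinuousOn (fun q : (ℝ × ℝ) × (ℝ × ℝ) => u q.1 - v q.2 - D q - P q.1)
      (box x0.1 x0.2 ×ˢ box x0.1 x0.2) := by
    refine ContinuousOn.sub (ContinuousOn.sub (ContinuousOn.sub ?_ ?_) ?_) ?_
    · exact hcuK.comp continuousOn_fst (fun q hq => hq.1)
    · exact hcvK.comp continuousOn_snd (fun q hq => hq.2)
    · exact hDc.continuousOn
    · exact (hPc.comp continuous_fst).continuousOn
  obtain ⟨⟨y, w⟩, ⟨hyK, hwK⟩, hmax⟩ := hKK.exists_isMaxOn ⟨(x0, x0), ⟨hx0K, hx0K⟩⟩ hcont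
  simp only at hyK hwK
  have hmax' : ∀ y' ∈ box x0.1 x0.2, ∀ w' ∈ box x0.1 x0.2,
      u y' - v w' - D (y', w') - P y' ≤ u y - v w - D (y, w) - P y :=
    fun y' hy' w' hw' => hmax (show (y', w') ∈ box x0.1 x0.2 ×ˢ box x0.1 x0.2 from ⟨hy', hw'⟩)
  have h00 := hmax' x0 hx0K x0 hx0K
  have hP0 : P x0 = 2 * Real.exp (-(k / 2)) := by
    simp only [hP]
    have e : ∀ a : ℝ, k * (a - a - 1 / 2) = -(k / 2) := by intro a; ring
    rw [e, e]; ring
  have hD0 : D (x0, x0) = 0 := by simp only [hD]; simp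
  have hDnn : 0 ≤ D (y, w) := by simp only [hD]; positivity
  have hPy : 0 < P y := by simp only [hP]; positivity
  have hkey : 2 * c + D (y, w) + P y ≤ u y - v w := by
    rw [hP0, hD0] at h00
    have : u x0 - v x0 = 3 * c := by rw [hc]; ring
    linarith
  have hvw : 0 ≤ v w := hvnn w (box_sub _ _ hwK)
  have huB : u y ≤ B := by
    have := hB y hyK
    rw [Real.norm_eq_abs] at this
    exact (abs_le.mp this).2
  have huy : v w < u y := by linarith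
  -- localisation
  have hexp : ∀ s a : ℝ, a + 3 / 4 ≤ s → B < Real.exp (k * (s - a - 1 / 2)) := by
    intro s a hs
    refine hk2.trans_le (Real.exp_le_exp.mpr ?_)
    nlinarith
  have hy1 : y.1 < x0.1 + 3 / 4 := by
    by_contra h
    push Not at h
    have := hexp y.1 x0.1 h
    have h5 : Real.exp (k * (y.1 - x0.1 - 1 / 2)) < P y := by
      simp only [hP]; linarith [Real.exp_pos (k * (y.2 - x0.2 - 1 / 2))]
    linarith
  have hy2 : y.2 < x0.2 + 3 / 4 := by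
    by_contra h
    push Not at h
    have := hexp y.2 x0.2 h
    have h5 : Real.exp (k * (y.2 - x0.2 - 1 / 2)) < P y := by
      simp only [hP]; linarith [Real.exp_pos (k * (y.1 - x0.1 - 1 / 2))]
    linarith
  have hDle : (y.1 - w.1) ^ 2 + (y.2 - w.2) ^ 2 < η ^ 2 := by
    have h1 : D (y, w) ≤ B := by linarith
    simp only [hD] at h1
    rw [div_le_iff₀ (by positivity)] at h1
    linarith
  have hd1 : |y.1 - w.1| < η := by
    refine abs_lt_of_sq_lt_sq ?_ hη0.le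
    nlinarith [sq_nonneg (y.2 - w.2)]
  have hd2 : |y.2 - w.2| < η := by
    refine abs_lt_of_sq_lt_sq ?_ hη0.le
    nlinarith [sq_nonneg (y.1 - w.1)]
  have hdist : dist y w < η := by
    rw [Prod.dist_eq, Real.dist_eq, Real.dist_eq]
    exact max_lt hd1 hd2
  have hduu : u y - u w < c := by
    have := hδu y hyK w hwK (hdist.trans_le hη1)
    rw [Real.dist_eq] at this
    exact (abs_lt.mp this).2
  have hdvv : v y - v w < c := by
    have := hδv y hyK w hwK (hdist.trans_le hη2)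
    rw [Real.dist_eq] at this
    exact (abs_lt.mp this).2
  have hw1 : w.1 < x0.1 + 1 := by linarith [(abs_lt.mp hd1).1]
  have hw2 : w.2 < x0.2 + 1 := by linarith [(abs_lt.mp hd2).1]
  have py1 : 0 < y.1 := by
    rcases lt_or_eq_of_le hyK.1.1 with h | h
    · exact h
    · exfalso
      have e : y = (0, y.2) := by rw [h]
      have a1 : u y ≤ m0 y.2 := by rw [e]; exact hinu y.2 hyK.2.1
      have a2 : m0 y.2 ≤ v y := by rw [e]; exact hinv y.2 hyK.2.1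
      linarith
  have py2 : 0 < y.2 := by
    rcases lt_or_eq_of_le hyK.2.1 with h | h
    · exact h
    · exfalso
      have e : y = (y.1, 0) := by rw [h]
      have a1 : u y ≤ 0 := by rw [e]; exact hbu y.1 hyK.1.1
      have a2 : 0 ≤ v y := by rw [e]; exact hbv y.1 hyK.1.1
      linarith
  have pw1 : 0 < w.1 := by
    rcases lt_or_eq_of_le hwK.1.1 with h | h
    · exact h
    · exfalso
      have e : w = (0, w.2) := by rw [h]
      have a1 : u w ≤ m0 w.2 := by rw [e]; exact hinu w.2 hwK.2.1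
      have a2 : m0 w.2 ≤ v w := by rw [e]; exact hinv w.2 hwK.2.1
      linarith
  have pw2 : 0 < w.2 := by
    rcases lt_or_eq_of_le hwK.2.1 with h | h
    · exact h
    · exfalso
      have e : w = (w.1, 0) := by rw [h]
      have a1 : u w ≤ 0 := by rw [e]; exact hbu w.1 hwK.1.1
      have a2 : 0 ≤ v w := by rw [e]; exact hbv w.1 hwK.1.1
      linarith
  -- the two test functions
  have hsq : ∀ a s : ℝ, HasDerivAt (fun r : ℝ => (r - a) ^ 2 / (2 * ε)) ((s - a) / ε) s := by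
    intro a s
    have h := (((hasDerivAt_id' s).sub_const a).fun_pow 2).div_const (2 * ε)
    refine h.congr_deriv ?_
    norm_num
    field_simp
  have hsq' : ∀ a s : ℝ, HasDerivAt (fun r : ℝ => -((a - r) ^ 2 / (2 * ε))) ((a - s) / ε) s := by
    intro a s
    have h := ((((hasDerivAt_id' s).const_sub a).fun_pow 2).div_const (2 * ε)).fun_neg
    refine h.congr_deriv ?_
    norm_num
    field_simp
  have hmemu : (((y.1 - w.1) / ε + k * Real.exp (k * (y.1 - x0.1 - 1 / 2)),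
      (y.2 - w.2) / ε + k * Real.exp (k * (y.2 - x0.2 - 1 / 2))) : ℝ × ℝ) ∈
      superDiff u (y.1, y.2) := by
    refine mem_superDiff u (fun q => ((q.1 - w.1) ^ 2 / (2 * ε) +
        Real.exp (k * (q.1 - x0.1 - 1 / 2))) +
      ((q.2 - w.2) ^ 2 / (2 * ε) + Real.exp (k * (q.2 - x0.2 - 1 / 2)))) _ _ ?_ ?_
    · exact hasFDerivAt_sep
        (fun s => (s - w.1) ^ 2 / (2 * ε) + Real.exp (k * (s - x0.1 - 1 / 2)))
        (fun s => (s - w.2) ^ 2 / (2 * ε) + Real.exp (k * (s - x0.2 - 1 / 2))) _ _ _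
        ((hsq w.1 y.1).add (hasDerivAt_pen k x0.1 y.1))
        ((hsq w.2 y.2).add (hasDerivAt_pen k x0.2 y.2))
    · filter_upwards [box_nhds x0.1 x0.2 y py1 (by linarith) py2 (by linarith)] with q hq
      have h1 := hmax' q hq w hwK
      simp only [hD, hP] at h1
      have e : u (y.1, y.2) = u y := rfl
      rw [e]
      have e1 : ((q.1 - w.1) ^ 2 + (q.2 - w.2) ^ 2) / (2 * ε) =
        (q.1 - w.1) ^ 2 / (2 * ε) + (q.2 - w.2) ^ 2 / (2 * ε) := by ring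
      have e2 : ((y.1 - w.1) ^ 2 + (y.2 - w.2) ^ 2) / (2 * ε) =
        (y.1 - w.1) ^ 2 / (2 * ε) + (y.2 - w.2) ^ 2 / (2 * ε) := by ring
      rw [e1, e2] at h1
      linarith
  have hmemv : (((y.1 - w.1) / ε, (y.2 - w.2) / ε) : ℝ × ℝ) ∈ subDiff v (w.1, w.2) := by
    refine mem_subDiff v (fun q => -((y.1 - q.1) ^ 2 / (2 * ε)) +
      -((y.2 - q.2) ^ 2 / (2 * ε))) _ _ ?_ ?_
    · exact hasFDerivAt_sep (fun s => -((y.1 - s) ^ 2 / (2 * ε)))
        (fun s => -((y.2 - s) ^ 2 / (2 * ε))) _ _ _ (hsq' y.1 w.1) (hsq' y.2 w.2)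
    · filter_upwards [box_nhds x0.1 x0.2 w pw1 hw1 pw2 hw2] with q hq
      have h1 := hmax' y hyK q hq
      simp only [hD, hP] at h1
      have e : v (w.1, w.2) = v w := rfl
      rw [e]
      have e1 : ((y.1 - q.1) ^ 2 + (y.2 - q.2) ^ 2) / (2 * ε) =
        (y.1 - q.1) ^ 2 / (2 * ε) + (y.2 - q.2) ^ 2 / (2 * ε) := by ring
      have e2 : ((y.1 - w.1) ^ 2 + (y.2 - w.2) ^ 2) / (2 * ε) =
        (y.1 - w.1) ^ 2 / (2 * ε) + (y.2 - w.2) ^ 2 / (2 * ε) := by ring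
      rw [e1, e2] at h1
      linarith
  have hfu := hsub y.1 y.2 py1 py2 _ hmemu
  have hfv := hsup w.1 w.2 pw1 pw2 _ hmemv
  have eu : u (y.1, y.2) = u y := rfl
  have ev : v (w.1, w.2) = v w := rfl
  rw [eu] at hfu
  rw [ev] at hfv
  simp only at hfu hfv
  have e1 : 0 < k * Real.exp (k * (y.1 - x0.1 - 1 / 2)) := by positivity
  have e2 : 0 < k * Real.exp (k * (y.2 - x0.2 - 1 / 2)) := by positivity
  have h3 : (max ((y.2 - w.2) / ε) 0) ^ α ≤
      (max ((y.2 - w.2) / ε + k * Real.exp (k * (y.2 - x0.2 - 1 / 2))) 0) ^ α :=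
    Real.rpow_le_rpow (le_max_right _ _) (max_le_max (by linarith) (le_refl _)) hα.le
  have h4 : 0 ≤ (max ((y.2 - w.2) / ε) 0) ^ α := Real.rpow_nonneg (le_max_right _ _) _
  have h5 : (max ((y.2 - w.2) / ε) 0) ^ α * v w ≤
      (max ((y.2 - w.2) / ε + k * Real.exp (k * (y.2 - x0.2 - 1 / 2))) 0) ^ α * u y :=
    mul_le_mul h3 huy.le hvw (h4.trans h3)
  linarith

/-- The mass equation `m_t + (m_ρ)_+ ^ α * m = 0` with initial datum `m0 ≥ 0` has at most one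
(continuous) viscosity solution. No continuity, monotonicity or growth of `m0` is needed, and no
uniform continuity of the solutions. -/
theorem result (α : ℝ) (hα : 0 < α) (m0 : ℝ → ℝ) (hm0 : ∀ ρ : ℝ, 0 ≤ ρ → 0 ≤ m0 ρ)
    (m m' : ℝ × ℝ → ℝ) (hm : IsSolution α m0 m) (hm' : IsSolution α m0 m') :
    ∀ t ρ : ℝ, 0 ≤ t → 0 ≤ ρ → m (t, ρ) = m' (t, ρ) := by
  intro t ρ ht hρ
  exact le_antisymm (comparison α hα m0 hm0 m m' hm.1 hm'.2 (t, ρ) ⟨ht, hρ⟩)
    (comparison α hα m0 hm0 m' m hm'.1 hm.2 (t, ρ) ⟨ht, hρ⟩)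

end Pool.Agent.Results.MP_fe8c84_an.Uniqueness
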